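import Pool.Agent.Y157.PS.Stm

/-!
# Places of a Galois extension of `κ(x)` above a place of `κ(x)`
-/

set_option autoImplicit false
set_option linter.all false

open Polynomial FF

namespace Pool.Agent.Y903.PS

open Pool.Agent.Y157.PS

section
variable {κ N : Type} [Field κ] [Field N] [Algebra κ N]

lemma reg_aeval (w : Place κ N) {y : N} (h : w.Reg y) (q : κ[X]) : w.Reg (aeval y q) := by
  induction q using Polynomial.induction_on with
  | C a => rw [aeval_C]; exact w.reg_const a
  | add p q hp hq => rw [map_add]; exact w.reg_add hp hq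
  | monomial n a ih =>
    rw [pow_succ, ← mul_assoc, map_mul, aeval_X]
    exact w.reg_mul ih h

lemma ord_unit (w : Place κ N) {y : N} (h : 0 < w.ord y) (q : κ[X]) (hq : q.coeff 0 ≠ 0) :
    w.ord (aeval y q) = 0 ∧ aeval y q ≠ 0 := by
  have hy : y ≠ 0 := by rintro rfl; rw [w.ord_zero] at h; exact absurd h (lt_irrefl _)
  have e : aeval y q = algebraMap κ N (q.coeff 0) + aeval y q.divX * y := by
    conv_lhs => rw [← divX_mul_X_add q]
    rw [map_add, map_mul, aeval_X, aeval_C, add_comm]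
  have hc : algebraMap κ N (q.coeff 0) ≠ 0 := by
    rwa [Ne, map_eq_zero]
  by_cases h0 : aeval y q.divX = 0
  · rw [e, h0, zero_mul, add_zero]
    exact ⟨w.ord_const hq, hc⟩
  · have h1 : 0 < w.ord (aeval y q.divX * y) := by
      rw [w.ord_mul h0 hy]
      have h2 := (w.reg_iff h0).1 (reg_aeval w ((w.reg_iff hy).2 h.le) q.divX)
      omega
    have h2 : w.ord (aeval y q) = 0 := by
      rw [e, (w.ord_add_eq hc (mul_ne_zero h0 hy) (by rw [w.ord_const hq]; exact h1)).2,
        w.ord_const hq]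
    refine ⟨h2, ?_⟩
    intro h3
    rw [h3, eq_comm, add_eq_zero_iff_eq_neg] at e
    have h4 := w.ord_const hq
    rw [e, w.ord_neg] at h4
    omega

lemma dec (r : κ[X]) (hr : r ≠ 0) : ∃ (m : ℕ) (q : κ[X]), r = X ^ m * q ∧ q.coeff 0 ≠ 0 := by
  obtain ⟨q, h1, h2⟩ := exists_eq_pow_rootMultiplicity_mul_and_not_dvd r hr 0
  refine ⟨r.rootMultiplicity 0, q, by simpa using h1, ?_⟩
  intro h3
  apply h2
  rw [C_0, sub_zero, X_dvd_iff]
  exact h3

lemma ord_dec (w : Place κ N) {y : N} (h : 0 < w.ord y) {r q : κ[X]} {m : ℕ}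
    (e : r = X ^ m * q) (hq : q.coeff 0 ≠ 0) :
    w.ord (aeval y r) = m * w.ord y ∧ aeval y r ≠ 0 := by
  have hy : y ≠ 0 := by rintro rfl; rw [w.ord_zero] at h; exact absurd h (lt_irrefl _)
  obtain ⟨h1, h2⟩ := ord_unit w h q hq
  rw [e, map_mul, map_pow, aeval_X]
  exact ⟨by rw [w.ord_mul (pow_ne_zero m hy) h2, w.ord_pow, h1, add_zero],
    mul_ne_zero (pow_ne_zero m hy) h2⟩

end

section
variable {κ R N : Type} [Field κ] [Field R] [Field N] [Algebra κ R] [Algebra κ N] [Algebra R N]
  [IsScalarTower κ R N]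

lemma comap_le {t : R} (ht : RatF κ t) (w w' : Place κ N) (h : 0 < w.ord (algebraMap R N t))
    (h' : 0 < w'.ord (algebraMap R N t)) (z : R) (hz : algebraMap R N z ∈ w.O) :
    algebraMap R N z ∈ w'.O := by
  by_cases hz0 : z = 0
  · rw [hz0, map_zero]; exact w'.reg_zero
  have hm : z ∈ IntermediateField.adjoin κ {t} := by rw [ht.gen]; trivial
  rw [IntermediateField.mem_adjoin_simple_iff] at hm
  obtain ⟨r, s, hrs⟩ := hm
  have hr : r ≠ 0 := by
    rintro rfl
    apply hz0
    rw [hrs, map_zero, zero_div]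
  have hs : s ≠ 0 := by
    rintro rfl
    apply hz0
    rw [hrs, map_zero, div_zero]
  obtain ⟨m, q, e, hq⟩ := dec r hr
  obtain ⟨m', q', e', hq'⟩ := dec s hs
  have key : ∀ w : Place κ N, 0 < w.ord (algebraMap R N t) →
      w.ord (algebraMap R N z) = (m - m') * w.ord (algebraMap R N t) := by
    intro w h
    obtain ⟨a1, a2⟩ := ord_dec w h e hq
    obtain ⟨b1, b2⟩ := ord_dec w h e' hq'
    rw [hrs, map_div₀, ← aeval_algebraMap_apply, ← aeval_algebraMap_apply, w.ord_div a2 b2, a1, b1]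
    ring
  have hz1 : algebraMap R N z ≠ 0 := by rwa [Ne, map_eq_zero]
  rw [Place.mem_O, w.reg_iff hz1, key w h] at hz
  rw [Place.mem_O, w'.reg_iff hz1, key w' h']
  have h1 : (0 : ℤ) ≤ m - m' := nonneg_of_mul_nonneg_left hz h
  exact mul_nonneg h1 h'.le

lemma comap_eq {t : R} (ht : RatF κ t) (w w' : Place κ N) (h : 0 < w.ord (algebraMap R N t))
    (h' : 0 < w'.ord (algebraMap R N t)) :
    w.O.comap (algebraMap R N) = w'.O.comap (algebraMap R N) := by
  ext z
  exact ⟨comap_le ht w w' h h' z, comap_le ht w' w h' h z⟩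

/-- the transported place -/
def pull (g : N ≃ₐ[R] N) (w : Place κ N) : Place κ N where
  ord z := w.ord (g z)
  ord_zero := by rw [map_zero, w.ord_zero]
  ord_mul := by
    intro a b ha hb
    rw [map_mul, w.ord_mul (by simpa using ha) (by simpa using hb)]
  ord_add := by
    intro a b ha hb hab
    rw [map_add]
    refine w.ord_add (by simpa using ha) (by simpa using hb) ?_
    rw [← map_add]
    exact (map_ne_zero_iff g g.injective).2 hab
  ord_const := by
    intro c hc
    rw [IsScalarTower.algebraMap_apply κ R N, AlgEquiv.commutes,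
      ← IsScalarTower.algebraMap_apply κ R N]
    exact w.ord_const hc
  surj := by
    obtain ⟨t, ht0, ht⟩ := w.surj
    refine ⟨g.symm t, by simpa using ht0, ?_⟩
    rw [AlgEquiv.apply_symm_apply]
    exact ht

lemma pull_ord (g : N ≃ₐ[R] N) (w : Place κ N) (z : N) : (pull g w).ord z = w.ord (g z) := rfl

lemma pull_mul (g h : N ≃ₐ[R] N) (w : Place κ N) : pull (g * h) w = pull h (pull g w) := rfl

lemma pull_one (w : Place κ N) : pull (1 : N ≃ₐ[R] N) w = w := rfl

lemma pull_ordR (g : N ≃ₐ[R] N) (w : Place κ N) (z : R) :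
    (pull g w).ord (algebraMap R N z) = w.ord (algebraMap R N z) := by
  rw [pull_ord, AlgEquiv.commutes]

/-- transitivity -/
lemma trans_of (hc : S_CONJ) [Normal R N] {t : R} (ht : RatF κ t) (w w' : Place κ N)
    (h : 0 < w.ord (algebraMap R N t)) (h' : 0 < w'.ord (algebraMap R N t)) :
    ∃ g : N ≃ₐ[R] N, pull g w = w' := by
  obtain ⟨γ, hγ⟩ := hc R N w.O w'.O (comap_eq ht w w' h h')
  refine ⟨γ, ?_⟩
  refine (Place.eq_of_le w' (pull γ w) fun f hf h1 => ?_).symm
  have h2 : f ∈ w'.O := by rw [Place.mem_O, w'.reg_iff hf]; exact h1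
  rw [hγ, Place.mem_O, w.reg_iff (by simpa using hf)] at h2
  exact h2

lemma ord_prod (w : Place κ N) {ι : Type} (s : Finset ι) (F : ι → N) (hF : ∀ i ∈ s, F i ≠ 0) :
    w.ord (∏ i ∈ s, F i) = ∑ i ∈ s, w.ord (F i) := by
  classical
  induction s using Finset.induction_on with
  | empty => simp [w.ord_one]
  | insert a s ha ih =>
    rw [Finset.prod_insert ha, Finset.sum_insert ha, w.ord_mul (hF a (Finset.mem_insert_self a s))
      (Finset.prod_ne_zero_iff.2 fun i hi => hF i (Finset.mem_insert_of_mem hi)),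
      ih fun i hi => hF i (Finset.mem_insert_of_mem hi)]

end

end Pool.Agent.Y903.PS
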