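import Pool.Agent.Y903.PS.TSN
import Pool.Agent.Y903.PS.Loc

/-!
# Invariant functions on the places which kill the principal divisors are constant
-/

set_option autoImplicit false
set_option linter.all false

open Polynomial FF

namespace Pool.Agent.Y903.PS

open Pool.Agent.Y157.PS

section
variable {κ R N : Type} [Field κ] [IsAlgClosed κ] [CharZero κ] [Field R] [Field N] [Algebra κ R]
  [Algebra κ N] [Algebra R N] [IsScalarTower κ R N] [FiniteDimensional R N] [IsGalois R N]
  [IsFF κ N]

/-- the coordinate with a zero at `c` -/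
noncomputable def tt (x : R) : Option κ → R
  | none => x⁻¹
  | some b => x - algebraMap κ R b

omit [IsAlgClosed κ] [CharZero κ] in
lemma ratF_tt {x : R} (hx : RatF κ x) (c : Option κ) : RatF κ (tt x c) := by
  rcases c with _ | b
  · constructor
    · intro h
      apply hx.trans
      have := h.inv
      simpa [tt] using this
    · rw [tt, adjoin_inv, hx.gen]
  · constructor
    · intro h
      apply hx.trans
      have h1 : IsAlgebraic κ (tt x (some b) + algebraMap κ R b) := h.add (isAlgebraic_algebraMap b)
      simpa [tt] using h1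
    · rw [eq_top_iff, ← hx.gen, IntermediateField.adjoin_simple_le_iff]
      have h1 := IntermediateField.mem_adjoin_simple_self κ (tt x (some b))
      have h2 := (IntermediateField.adjoin κ {tt x (some b)}).algebraMap_mem b
      have h3 := add_mem h1 h2
      simpa [tt] using h3

lemma const_bij (w : Place κ N) : Function.Bijective (algebraMap κ w.RF) := by
  have : Algebra.IsIntegral κ w.RF := inferInstance
  exact IsAlgClosed.algebraMap_bijective_of_isIntegral

lemma deg_one (w : Place κ N) : w.deg = 1 := by
  have h := (LinearEquiv.ofBijective (Algebra.linearMap κ w.RF) (const_bij w)).finrank_eq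
  rw [Module.finrank_self] at h
  exact h.symm

lemma finrank_t {t : R} (ht : RatF κ t) :
    Module.finrank (IntermediateField.adjoin κ {algebraMap R N t}) N = Module.finrank R N := by
  have h4 : (IntermediateField.adjoin κ {t}).map (IsScalarTower.toAlgHom κ R N) =
      IntermediateField.adjoin κ {algebraMap R N t} := by
    rw [IntermediateField.adjoin_map, Set.image_singleton]; rfl
  have h2 : ∀ z : R, algebraMap R N z ∈ IntermediateField.adjoin κ {algebraMap R N t} := by
    intro z
    have h3 : z ∈ IntermediateField.adjoin κ {t} := by rw [ht.gen]; trivial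
    rw [← h4]
    exact ⟨z, h3, rfl⟩
  let i : R →+* (IntermediateField.adjoin κ {algebraMap R N t}) :=
    (algebraMap R N).codRestrict (IntermediateField.adjoin κ {algebraMap R N t}).toSubfield.toSubring
      h2
  have hi : Function.Bijective i := by
    refine ⟨i.injective, ?_⟩
    rintro ⟨y, hy⟩
    rw [← h4] at hy
    obtain ⟨z, _, hz⟩ := hy
    exact ⟨z, Subtype.ext hz⟩
  exact (Algebra.finrank_eq_of_equiv_equiv (RingEquiv.ofBijective i hi) (RingEquiv.refl N)
    (by ext z; rfl)).symm

lemma fund {t : R} (ht : RatF κ t) : ∃ S : Finset (Place κ N),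
    (∀ w, w ∈ S ↔ 0 < w.ord (algebraMap R N t)) ∧
      ∑ w ∈ S, w.ord (algebraMap R N t) = (Fintype.card (N ≃ₐ[R] N) : ℤ) := by
  have h1 : Transcendental κ (algebraMap R N t) := by
    rw [transcendental_algebraMap_iff (algebraMap R N).injective]
    exact ht.trans
  obtain ⟨S, hS, -, hsum⟩ := zeros (k := κ) (K := N) h1
  refine ⟨S, hS, ?_⟩
  rw [finrank_t ht, ← IsGalois.card_aut_eq_finrank, Nat.card_eq_fintype_card] at hsum
  rw [← hsum]
  push_cast
  refine Finset.sum_congr rfl fun w hw => ?_
  rw [deg_one, Nat.cast_one, mul_one, Int.toNat_of_nonneg ((hS w).1 hw).le]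

lemma local_sum (hc : S_CONJ) {t : R} (ht : RatF κ t) (S : Finset (Place κ N))
    (hS : ∀ w, w ∈ S ↔ 0 < w.ord (algebraMap R N t))
    (hsum : ∑ w ∈ S, w.ord (algebraMap R N t) = (Fintype.card (N ≃ₐ[R] N) : ℤ))
    (w0 : Place κ N) (h0 : w0 ∈ S) (φ : N) (hφ : φ ≠ 0) :
    w0.ord (algebraMap R N t) * ∑ w ∈ S, w.ord φ = w0.ord (algebraMap R N (Algebra.norm R φ)) := by
  classical
  let T : (N ≃ₐ[R] N) → Place κ N := fun g => pull g w0
  have hT : ∀ g, T g ∈ S := fun g => by
    rw [hS, pull_ordR]; exact (hS w0).1 h0
  have hsurj : ∀ w ∈ S, ∃ g, T g = w := fun w hw =>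
    trans_of hc ht w0 w ((hS w0).1 h0) ((hS w).1 hw)
  have hfib : ∀ w ∈ S, (Finset.univ.filter (fun g => T g = w)).card =
      (Finset.univ.filter (fun g => T g = w0)).card := by
    intro w hw
    obtain ⟨g1, hg1⟩ := hsurj w hw
    refine Finset.card_bij' (fun g _ => g * g1⁻¹) (fun g _ => g * g1) ?_ ?_ ?_ ?_
    · intro g hg
      rw [Finset.mem_filter] at hg ⊢
      refine ⟨Finset.mem_univ _, ?_⟩
      change pull (g * g1⁻¹) w0 = w0
      rw [pull_mul]
      have h1 : pull g w0 = pull g1 w0 := hg.2.trans hg1.symm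
      rw [h1, ← pull_mul, mul_inv_cancel, pull_one]
    · intro g hg
      rw [Finset.mem_filter] at hg ⊢
      refine ⟨Finset.mem_univ _, ?_⟩
      change pull (g * g1) w0 = w
      rw [pull_mul]
      have h1 : pull g w0 = w0 := hg.2
      rw [h1]
      exact hg1
    · intro g _; exact inv_mul_cancel_right g g1
    · intro g _; exact mul_inv_cancel_right g g1
  have he : ∀ w ∈ S, w.ord (algebraMap R N t) = w0.ord (algebraMap R N t) := by
    intro w hw
    obtain ⟨g, rfl⟩ := hsurj w hw
    exact pull_ordR g w0 t
  rw [Finset.sum_congr rfl he, Finset.sum_const, nsmul_eq_mul] at hsum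
  have hcard : Fintype.card (N ≃ₐ[R] N) =
      S.card * (Finset.univ.filter (fun g => T g = w0)).card := by
    rw [← Finset.card_univ, Finset.card_eq_sum_card_fiberwise (f := T) (t := S)
      (fun g _ => hT g), Finset.sum_congr rfl hfib, Finset.sum_const, smul_eq_mul]
  have hScard : (S.card : ℤ) ≠ 0 := by
    have := Finset.card_pos.2 ⟨w0, h0⟩
    omega
  have hes : w0.ord (algebraMap R N t) =
      ((Finset.univ.filter (fun g => T g = w0)).card : ℤ) := by
    have h1 : (Fintype.card (N ≃ₐ[R] N) : ℤ) =
        (S.card : ℤ) * ((Finset.univ.filter (fun g => T g = w0)).card : ℤ) := by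
      exact_mod_cast hcard
    rw [h1] at hsum
    exact mul_left_cancel₀ hScard hsum
  rw [Algebra.norm_eq_prod_automorphisms, ord_prod w0 Finset.univ _
    (fun g _ => (map_ne_zero_iff g g.injective).2 hφ)]
  have h2 : ∑ g : N ≃ₐ[R] N, w0.ord (g φ) = ∑ w ∈ S, ∑ g ∈ Finset.univ.filter (fun g => T g = w),
      w0.ord (g φ) := (Finset.sum_fiberwise_of_maps_to (fun g _ => hT g) _).symm
  rw [h2, hes, Finset.mul_sum]
  refine Finset.sum_congr rfl fun w hw => ?_
  rw [← hfib w hw]
  have h3 : ∀ g ∈ Finset.univ.filter (fun g => T g = w), w0.ord (g φ) = w.ord φ := by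
    intro g hg
    rw [← (Finset.mem_filter.1 hg).2]
    rfl
  rw [Finset.sum_congr rfl h3, Finset.sum_const, nsmul_eq_mul]

omit [FiniteDimensional R N] [IsGalois R N] in
lemma exists_center {x : R} (hx : RatF κ x) (w : Place κ N) :
    ∃ c : Option κ, 0 < w.ord (algebraMap R N (tt x c)) := by
  have hne : ∀ c : Option κ, algebraMap R N (tt x c) ≠ 0 := by
    intro c h
    rw [map_eq_zero] at h
    apply (ratF_tt hx c).trans
    rw [h]
    exact isAlgebraic_zero
  have hx0 : algebraMap R N x ≠ 0 := by
    intro h
    rw [map_eq_zero] at h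
    apply hx.trans
    rw [h]
    exact isAlgebraic_zero
  rcases lt_or_ge (w.ord (algebraMap R N x)) 0 with h | h
  · refine ⟨none, ?_⟩
    rw [tt, map_inv₀, w.ord_inv]
    omega
  · have hr : w.Reg (algebraMap R N x) := (w.reg_iff hx0).2 h
    obtain ⟨b, hb⟩ := (const_bij w).2 (w.red (algebraMap R N x))
    refine ⟨some b, ?_⟩
    have h1 : w.red (algebraMap R N (tt x (some b))) = 0 := by
      rw [tt, map_sub, ← IsScalarTower.algebraMap_apply, w.red_sub hr (w.reg_const b),
        ← Place.algebraMap_RF, hb, sub_self]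
    have h2 : w.Reg (algebraMap R N (tt x (some b))) := by
      rw [tt, map_sub, ← IsScalarTower.algebraMap_apply, sub_eq_add_neg]
      exact w.reg_add hr (w.reg_neg (w.reg_const b))
    rcases (w.red_eq_zero_iff h2).1 h1 with h3 | h3
    · exact absurd h3 (hne _)
    · exact h3

omit [IsAlgClosed κ] [CharZero κ] [FiniteDimensional R N] [IsGalois R N] [IsFF κ N] in
/-- the order of `x - b₀` at a place with centre `c` -/
lemma ord_center {x : R} (hx : RatF κ x) (w : Place κ N) (c : Option κ)
    (h : 0 < w.ord (algebraMap R N (tt x c))) (b0 : κ) (hc : c ≠ some b0) :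
    w.ord (algebraMap R N (tt x (some b0))) =
      if c = none then - w.ord (algebraMap R N (tt x c)) else 0 := by
  have hne : ∀ c : Option κ, algebraMap R N (tt x c) ≠ 0 := by
    intro c h
    rw [map_eq_zero] at h
    apply (ratF_tt hx c).trans
    rw [h]
    exact isAlgebraic_zero
  rcases c with _ | b
  · rw [if_pos rfl]
    have h1 : w.ord (algebraMap R N x) < 0 := by
      rw [tt, map_inv₀, w.ord_inv] at h
      omega
    have h2 : w.ord (algebraMap R N (tt (κ := κ) x none)) = - w.ord (algebraMap R N x) := by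
      rw [tt, map_inv₀, w.ord_inv]
    rw [h2, neg_neg]
    have hx0 : algebraMap R N x ≠ 0 := by
      intro h
      rw [h, w.ord_zero] at h1
      exact lt_irrefl _ h1
    by_cases hb : b0 = 0
    · rw [tt, hb, map_zero, sub_zero]
    · have h3 : algebraMap R N (tt x (some b0)) = algebraMap R N x + algebraMap κ N (-b0) := by
        rw [tt, map_sub, ← IsScalarTower.algebraMap_apply, map_neg, sub_eq_add_neg]
      rw [h3, (w.ord_add_eq hx0 (by simpa using hb) (by
        rw [w.ord_const (neg_ne_zero.2 hb)]; exact h1)).2]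
  · rw [if_neg (by simp)]
    have hbb : b - b0 ≠ 0 := by
      intro h1
      apply hc
      rw [sub_eq_zero.1 h1]
    have h3 : algebraMap R N (tt x (some b0)) =
        algebraMap κ N (b - b0) + algebraMap R N (tt x (some b)) := by
      rw [tt, tt, map_sub, map_sub, map_sub, ← IsScalarTower.algebraMap_apply,
        ← IsScalarTower.algebraMap_apply]
      ring
    rw [h3, (w.ord_add_eq (by rwa [Ne, map_eq_zero]) (hne _) (by
      rw [w.ord_const hbb]; exact h)).2, w.ord_const hbb]

omit [IsAlgClosed κ] [CharZero κ] [FiniteDimensional R N] [IsGalois R N] [IsFF κ N] in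
lemma center_unique {x : R} (hx : RatF κ x) (w : Place κ N) (c c' : Option κ)
    (h : 0 < w.ord (algebraMap R N (tt x c))) (h' : 0 < w.ord (algebraMap R N (tt x c'))) :
    c = c' := by
  by_contra hne
  rcases c' with _ | b'
  · rcases c with _ | b
    · exact hne rfl
    · have h1 := ord_center hx w none h' b (fun h => by simp at h)
      rw [if_pos rfl] at h1
      omega
  · have h1 := ord_center hx w c h b' hne
    split_ifs at h1 <;> omega

end

/-- invariant functions on the places which kill the principal divisors are constant -/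
theorem t1a (h1 : S_TSN) (h2 : S_CONJ) : S_T1A := by
  classical
  intro ℓ _ κ R N _ _ _ _ _ _ _ _ _ _ _ _ x hx f hf hf2
  choose S hS hsum using fun c : Option κ => fund (N := N) (ratF_tt hx c)
  choose π hπ using fun w : Place κ N => exists_center hx w
  have hfS : ∀ c, ∀ w ∈ S c, ∀ w' ∈ S c, f w = f w' := by
    intro c w hw w' hw'
    obtain ⟨g, hg⟩ := trans_of h2 (ratF_tt hx c) w w' ((hS c w).1 hw) ((hS c w').1 hw')
    rw [← hg]
    exact (hf g w (pull g w) (fun z => rfl)).symm
  have hSne : ∀ c, (S c).Nonempty := by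
    intro c
    by_contra h
    rw [Finset.not_nonempty_iff_eq_empty] at h
    have h3 := hsum c
    rw [h, Finset.sum_empty] at h3
    have h4 : 0 < Fintype.card (N ≃ₐ[R] N) := Fintype.card_pos
    omega
  choose v hv using hSne
  have hπS : ∀ w, w ∈ S (π w) := fun w => (hS _ w).2 (hπ w)
  have hπu : ∀ c, ∀ w ∈ S c, π w = c := fun c w hw =>
    center_unique hx w _ _ (hπ w) ((hS c w).1 hw)
  have key : ∀ b0 : κ, f (v (some b0)) = f (v none) := by
    intro b0
    obtain ⟨φ, hφ⟩ := h1 κ R N x hx (tt x (some b0))
    have ht0 : (tt x (some b0) : R) ≠ 0 := by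
      intro h
      apply (ratF_tt hx (some b0)).trans
      rw [h]
      exact isAlgebraic_zero
    have hφ0 : φ ≠ 0 := by
      rintro rfl
      rw [Algebra.norm_zero] at hφ
      exact ht0 hφ.symm
    have hpos : ∀ c, ∀ w ∈ S c, 0 < w.ord (algebraMap R N (tt x c)) := fun c w hw => (hS c w).1 hw
    have hloc : ∀ c, ∑ w ∈ S c, w.ord φ = if c = some b0 then 1 else if c = none then -1 else 0 := by
      intro c
      have h3 := local_sum h2 (ratF_tt hx c) (S c) (hS c) (hsum c) (v c) (hv c) φ hφ0
      rw [hφ] at h3
      have h4 := hpos c _ (hv c)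
      by_cases hcb : c = some b0
      · rw [if_pos hcb]
        rw [hcb] at h3 h4 ⊢
        exact mul_left_cancel₀ h4.ne' (h3.trans (mul_one _).symm)
      · rw [if_neg hcb]
        rw [ord_center hx (v c) c h4 b0 hcb] at h3
        by_cases hcn : c = none
        · rw [if_pos hcn] at h3 ⊢
          exact mul_left_cancel₀ h4.ne' (h3.trans (by ring))
        · rw [if_neg hcn] at h3 ⊢
          exact mul_left_cancel₀ h4.ne' (h3.trans (mul_zero _).symm)
    have h5 := hf2 φ hφ0
    rw [Finsupp.sum] at h5
    let A : Finset (Place κ N) := (divisor κ φ).support ∪ {v (some b0), v none}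
    have h6 : ∑ w ∈ A, f w * ((w.ord φ : ℤ) : ZMod ℓ) = 0 := by
      rw [← h5]
      symm
      refine Finset.sum_subset Finset.subset_union_left fun w _ hw => ?_
      have : divisor κ φ w = 0 := by simpa using hw
      rw [this]
      simp
    have h7 : ∑ w ∈ A, f w * ((w.ord φ : ℤ) : ZMod ℓ) =
        ∑ c ∈ A.image π, ∑ w ∈ A.filter (fun w => π w = c), f w * ((w.ord φ : ℤ) : ZMod ℓ) :=
      (Finset.sum_fiberwise_of_maps_to (fun w hw => Finset.mem_image_of_mem π hw) _).symm
    have h8 : ∀ c, ∑ w ∈ A.filter (fun w => π w = c), f w * ((w.ord φ : ℤ) : ZMod ℓ) =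
        f (v c) * (if c = some b0 then 1 else if c = none then -1 else 0) := by
      intro c
      have h9 : ∑ w ∈ A.filter (fun w => π w = c), f w * ((w.ord φ : ℤ) : ZMod ℓ) =
          ∑ w ∈ S c, f w * ((w.ord φ : ℤ) : ZMod ℓ) := by
        refine Finset.sum_subset ?_ ?_
        · intro w hw
          rw [← (Finset.mem_filter.1 hw).2]
          exact hπS w
        · intro w hw hw2
          have h10 : w ∉ A := fun h => hw2 (Finset.mem_filter.2 ⟨h, hπu c w hw⟩)
          have h11 : w ∉ (divisor κ φ).support := fun h => h10 (Finset.mem_union_left _ h)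
          have h12 : divisor κ φ w = 0 := by simpa using h11
          rw [divisor_apply] at h12
          rw [h12]
          simp
      rw [h9, Finset.sum_congr rfl (g := fun w => f (v c) * ((w.ord φ : ℤ) : ZMod ℓ))
        (fun w hw => by rw [hfS c w hw (v c) (hv c)]), ← Finset.mul_sum]
      congr 1
      have h13 := congrArg (fun n : ℤ => (n : ZMod ℓ)) (hloc c)
      push_cast at h13
      rw [h13]
    rw [h7, Finset.sum_congr rfl (fun c _ => h8 c)] at h6
    have hm1 : some b0 ∈ A.image π := Finset.mem_image.2 ⟨v (some b0),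
      Finset.mem_union_right _ (by simp), hπu _ _ (hv _)⟩
    have hm2 : (none : Option κ) ∈ A.image π := Finset.mem_image.2 ⟨v none,
      Finset.mem_union_right _ (by simp), hπu _ _ (hv _)⟩
    have h14 : ∑ c ∈ A.image π, f (v c) * (if c = some b0 then 1 else if c = none then -1 else 0) =
        ∑ c ∈ ({some b0, none} : Finset (Option κ)),
          f (v c) * (if c = some b0 then 1 else if c = none then -1 else 0) := by
      symm
      refine Finset.sum_subset ?_ ?_
      · intro c hc
        rw [Finset.mem_insert, Finset.mem_singleton] at hc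
        rcases hc with rfl | rfl
        · exact hm1
        · exact hm2
      · intro c _ hc
        rw [Finset.mem_insert, Finset.mem_singleton, not_or] at hc
        rw [if_neg hc.1, if_neg hc.2, mul_zero]
    rw [h14, Finset.sum_pair (by simp), if_pos rfl, if_neg (by simp), if_pos rfl] at h6
    linear_combination h6
  have hall : ∀ w, f w = f (v none) := by
    intro w
    rw [hfS (π w) w (hπS w) (v (π w)) (hv _)]
    rcases h : π w with _ | b
    · rfl
    · exact key b
  intro w w'
  rw [hall w, hall w']

end Pool.Agent.Y903.PS
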