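import Pool.Agent.Y157.PS.Stm
import Pool.Agent.H552R3.Tsen.C1

/-!
# Norm maps are surjective (Tsen)
-/

set_option autoImplicit false
set_option linter.all false

open Polynomial FF

namespace Pool.Agent.Y903.PS

open Pool.Agent.Y157.PS

/-- the norm form minus `z T ^ n` -/
noncomputable def nf {R : Type} [Field R] {n : ℕ} (M : Fin n → Matrix (Fin n) (Fin n) R) (z : R) :
    MvPolynomial (Option (Fin n)) R :=
  (∑ i, (M i).map (fun c => MvPolynomial.C c * MvPolynomial.X (some i)) :
      Matrix (Fin n) (Fin n) (MvPolynomial (Option (Fin n)) R)).det -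
    MvPolynomial.C z * MvPolynomial.X none ^ n

lemma nf_hom {R : Type} [Field R] {n : ℕ} (M : Fin n → Matrix (Fin n) (Fin n) R) (z : R) :
    (nf M z).IsHomogeneous n := by
  unfold nf
  refine MvPolynomial.IsHomogeneous.sub ?_ ?_
  · rw [Matrix.det_apply]
    refine MvPolynomial.IsHomogeneous.sum _ _ _ fun σ _ => ?_
    have h : (∏ i, (∑ i, (M i).map (fun c => MvPolynomial.C c * MvPolynomial.X (some i)) :
      Matrix (Fin n) (Fin n) (MvPolynomial (Option (Fin n)) R)) (σ i) i).IsHomogeneous
        (∑ _i : Fin n, 1) := by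
      refine MvPolynomial.IsHomogeneous.prod _ _ _ fun i _ => ?_
      rw [Matrix.sum_apply]
      refine MvPolynomial.IsHomogeneous.sum _ _ _ fun j _ => ?_
      rw [Matrix.map_apply]
      have := (MvPolynomial.isHomogeneous_C (Option (Fin n)) (M j (σ i) i)).mul
        (MvPolynomial.isHomogeneous_X R (some j))
      rwa [zero_add] at this
    rw [Finset.sum_const, Finset.card_univ, Fintype.card_fin, smul_eq_mul, mul_one] at h
    rcases Int.units_eq_one_or (Equiv.Perm.sign σ) with hs | hs
    · rw [hs, one_smul]; exact h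
    · rw [hs, Units.neg_smul, one_smul]; exact h.neg
  · have := (MvPolynomial.isHomogeneous_C (Option (Fin n)) z).mul
      ((MvPolynomial.isHomogeneous_X R (none : Option (Fin n))).pow n)
    rwa [zero_add, one_mul] at this

lemma nf_eval {R : Type} [Field R] {n : ℕ} (M : Fin n → Matrix (Fin n) (Fin n) R) (z : R)
    (a : Option (Fin n) → R) :
    MvPolynomial.eval a (nf M z) = (∑ i, a (some i) • M i).det - z * a none ^ n := by
  unfold nf
  rw [map_sub, map_mul, map_pow, MvPolynomial.eval_C, MvPolynomial.eval_X, RingHom.map_det]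
  congr 2
  ext i j
  rw [RingHom.mapMatrix_apply, Matrix.map_apply, Matrix.sum_apply, Matrix.sum_apply, map_sum]
  refine Finset.sum_congr rfl fun k _ => ?_
  rw [Matrix.map_apply, map_mul, MvPolynomial.eval_C, MvPolynomial.eval_X, Matrix.smul_apply,
    smul_eq_mul, mul_comm]

/-- norm maps are surjective -/
theorem tsn : S_TSN := by
  intro κ R N _ _ _ _ _ _ _ _ x hx z
  let n := Module.finrank R N
  have hn : 0 < n := Module.finrank_pos
  let b := Module.finBasis R N
  let M : Fin n → Matrix (Fin n) (Fin n) R := fun i => Algebra.leftMulMatrix b (b i)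
  have hdeg : (nf M z).totalDegree ≤ n := (nf_hom M z).totalDegree_le
  have h0 : MvPolynomial.eval 0 (nf M z) = 0 := by
    rw [nf_eval]
    have : Nonempty (Fin n) := ⟨⟨0, hn⟩⟩
    simp only [Pi.zero_apply, zero_smul, Finset.sum_const_zero, zero_pow hn.ne', mul_zero,
      sub_zero]
    exact Matrix.det_zero
  have hspan : ∀ z : R, ∃ h : Polynomial κ, h ≠ 0 ∧ ∃ p : Unit → Polynomial κ,
      Polynomial.aeval x h * z = ∑ j, Polynomial.aeval x (p j) * (fun _ : Unit => (1 : R)) j := by
    intro z
    have hz : z ∈ IntermediateField.adjoin κ {x} := by rw [hx.gen]; trivial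
    rw [IntermediateField.mem_adjoin_simple_iff] at hz
    obtain ⟨r, s, hrs⟩ := hz
    by_cases hs : aeval x s = 0
    · refine ⟨1, one_ne_zero, fun _ => 0, ?_⟩
      rw [hrs, hs]
      simp
    · refine ⟨s, ?_, fun _ => r, ?_⟩
      · rintro rfl
        simp at hs
      · rw [hrs]
        simp only [Finset.univ_unique, Finset.sum_singleton, mul_one]
        rw [mul_div_cancel₀ _ hs]
  have hlin : ∀ p : Unit → Polynomial κ,
      ∑ j, Polynomial.aeval x (p j) * (fun _ : Unit => (1 : R)) j = 0 → ∀ j, p j = 0 := by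
    intro p hp j
    simp only [Finset.univ_unique, Finset.sum_singleton, mul_one] at hp
    by_contra h
    exact hx.trans ⟨p j, h, hp⟩
  obtain ⟨a, ha, ha0⟩ := Pool.Agent.H552R3.Tsen.exists_zero x (fun _ : Unit => (1 : R)) hx.trans
    hspan hlin (nf M z) n hdeg h0 (by rw [Fintype.card_option, Fintype.card_fin]; omega)
  rw [nf_eval, sub_eq_zero] at ha0
  let β : N := ∑ i, a (some i) • b i
  have hβ : Algebra.norm R β = z * a none ^ n := by
    rw [← ha0, Algebra.norm_eq_matrix_det b]
    congr 1
    rw [map_sum]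
    refine Finset.sum_congr rfl fun i _ => ?_
    rw [map_smul]
  have hT : a none ≠ 0 := by
    intro hT
    rw [hT, zero_pow hn.ne', mul_zero, Algebra.norm_eq_zero_iff] at hβ
    apply ha
    funext i
    rcases i with _ | i
    · exact hT
    · exact (Fintype.linearIndependent_iff.1 b.linearIndependent) (fun i => a (some i)) hβ i
  refine ⟨algebraMap R N (a none)⁻¹ * β, ?_⟩
  rw [map_mul, Algebra.norm_algebraMap, hβ]
  change (a none)⁻¹ ^ n * (z * a none ^ n) = z
  rw [mul_comm z, ← mul_assoc, ← mul_pow, inv_mul_cancel₀ hT, one_pow, one_mul]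

end Pool.Agent.Y903.PS
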